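import Pool.Agent.K1H51.BT.Constr
import Pool.Agent.TH455.PlanarSparse

/-!
# The bipartite thickness of the complete graphs of order `2` modulo `4`

`β(K_p) = (p + 2) / 4` for every `p ≥ 14`, `p ≡ 2` modulo `4`. The upper bound is an explicit decomposition of `K_(4 k + 2)`
into `k + 1` bipartite graphs with straight-line drawings, for `k ≥ 3`; the lower bound is the count of the edges (the bound
for the number of edges of a bipartite graph with a straight-line drawing is from the starting files,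
`Pool.Agent.H239R2.Planar.line_sparse`).
-/

set_option autoImplicit false

namespace Pool.Agent.Results.MP_a8e10c_co.BipartiteThickness

/-- A graph is planar: it has a drawing in the plane in which the edges are straight line segments; the vertices are
distinct points, the closed segment of an edge contains no vertex other than its ends, and the segments of two different
edges meet at most in a common end. -/
def Planar {V : Type} (G : SimpleGraph V) : Prop :=
  ∃ p : V → ℝ × ℝ, Function.Injective p ∧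
    (∀ u v w : V, G.Adj u v → p w ∈ segment ℝ (p u) (p v) → w = u ∨ w = v) ∧
    (∀ u v x y : V, G.Adj u v → G.Adj x y → s(u, v) ≠ s(x, y) →
      ∀ q, q ∈ segment ℝ (p u) (p v) → q ∈ segment ℝ (p x) (p y) →
        ∃ w, (w = u ∨ w = v) ∧ (w = x ∨ w = y) ∧ q = p w)

/-- `G` is the union of `t` subgraphs, each of them planar and bipartite. -/
def IsUnion {V : Type} (G : SimpleGraph V) (t : ℕ) : Prop :=
  ∃ H : Fin t → SimpleGraph V, (∀ i, H i ≤ G) ∧ (∀ i, Planar (H i) ∧ (H i).IsBipartite) ∧
    ∀ u v, G.Adj u v → ∃ i, (H i).Adj u v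

/-- The bipartite thickness `β(G)`: the least `t` such that `G` is the union of `t` planar bipartite subgraphs. -/
noncomputable def bipartiteThickness {V : Type} (G : SimpleGraph V) : ℕ := sInf {t | IsUnion G t}

open Pool.Agent.K1H51.BT Pool.Agent.H239R2.Planar in
lemma planar_comap {V W : Type} (G : SimpleGraph W) (f : V → W) (hf : Function.Injective f) (hG : HasStraightLineDrawing G) :
    Planar (G.comap f) := by
  obtain ⟨p, hp, h1, h2⟩ := hG
  refine ⟨p ∘ f, hp.comp hf, ?_, ?_⟩
  · intro u v w huv hw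
    rcases h1 (f u) (f v) (f w) huv hw with h | h
    · exact Or.inl (hf h)
    · exact Or.inr (hf h)
  · intro u v x y huv hxy hne q hq1 hq2
    have hne' : s(f u, f v) ≠ s(f x, f y) := by
      intro h
      apply hne
      rw [Sym2.eq_iff] at h ⊢
      rcases h with ⟨a, b⟩ | ⟨a, b⟩
      · exact Or.inl ⟨hf a, hf b⟩
      · exact Or.inr ⟨hf a, hf b⟩
    obtain ⟨w, hw1, hw2, hw3⟩ := h2 (f u) (f v) (f x) (f y) huv hxy hne' q hq1 hq2
    rcases hw1 with h | h
    · refine ⟨u, Or.inl rfl, ?_, by rw [hw3, h]; rfl⟩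
      rw [h] at hw2
      exact hw2.imp (fun a => hf a) (fun a => hf a)
    · refine ⟨v, Or.inr rfl, ?_, by rw [hw3, h]; rfl⟩
      rw [h] at hw2
      exact hw2.imp (fun a => hf a) (fun a => hf a)

/-- an injection of the vertices -/
def emb (k : ℕ) (v : Fin (4 * k + 2)) : Pool.Agent.K1H51.BT.Vt k :=
  if h : v.val < 4 * k then
    (if v.val % 4 = 0 then .p ⟨v.val / 4, by omega⟩ else if v.val % 4 = 1 then .q ⟨v.val / 4, by omega⟩ else
      if v.val % 4 = 2 then .r ⟨v.val / 4, by omega⟩ else .s ⟨v.val / 4, by omega⟩)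
  else if v.val = 4 * k then .x else .y

lemma emb_inj (k : ℕ) : Function.Injective (emb k) := by
  intro u v h
  have hu := u.isLt
  have hv := v.isLt
  unfold emb at h
  apply Fin.ext
  split_ifs at h <;>
    simp only [Pool.Agent.K1H51.BT.Vt.p.injEq, Pool.Agent.K1H51.BT.Vt.q.injEq, Pool.Agent.K1H51.BT.Vt.r.injEq,
      Pool.Agent.K1H51.BT.Vt.s.injEq, Fin.mk.injEq] at h <;> omega

open Pool.Agent.K1H51.BT in
theorem upper (k : ℕ) (hk : 3 ≤ k) : IsUnion (⊤ : SimpleGraph (Fin (4 * k + 2))) (k + 1) := by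
  refine ⟨fun i => if h : i.val < k then (G ⟨i.val, h⟩ hk).comap (emb k) else Lst.comap (emb k), fun i => le_top, ?_, ?_⟩
  · intro i
    by_cases h : i.val < k
    · simp only [dif_pos h]
      exact ⟨planar_comap _ _ (emb_inj k) (G_drawing _ hk), (G_bip _ hk).of_hom (SimpleGraph.Hom.comap (emb k) _)⟩
    · simp only [dif_neg h]
      exact ⟨planar_comap _ _ (emb_inj k) Lst_drawing, Lst_bip.of_hom (SimpleGraph.Hom.comap (emb k) _)⟩
  · intro u v huv
    have hne : emb k u ≠ emb k v := fun h => huv (emb_inj k h)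
    rcases cover hk _ _ hne with ⟨j, hj⟩ | h
    · refine ⟨⟨j.val, by omega⟩, ?_⟩
      simp only [dif_pos j.isLt]
      exact hj
    · refine ⟨⟨k, by omega⟩, ?_⟩
      simp only [lt_irrefl, dif_neg, not_false_eq_true]
      exact h

open Pool.Agent.TH455 in
lemma mem_eIn {V : Type} [Fintype V] (G : SimpleGraph V) (e : Sym2 V) : e ∈ eIn G Finset.univ ↔ e ∈ G.edgeSet := by
  classical
  unfold eIn
  rw [Finset.mem_filter, Finset.mem_sym2_iff]
  exact ⟨fun h => h.2, fun h => ⟨fun _ _ => Finset.mem_univ _, h⟩⟩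

open Pool.Agent.TH455 Pool.Agent.H239R2.Planar in
theorem edges_le {n : ℕ} (H : SimpleGraph (Fin (n + 1))) (h1 : Planar H) (h2 : H.IsBipartite) :
    (eIn H Finset.univ).card ≤ 2 * n := by
  have hfree : H.CliqueFree 3 := h2.cliqueFree (by norm_num)
  have hA : ((eIn H Finset.univ : Finset (Sym2 (Fin (n + 1)))) : Set (Sym2 (Fin (n + 1)))) ⊆ H.edgeSet := by
    intro e he
    exact (mem_eIn H e).1 (Finset.mem_coe.1 he)
  have h3 := line_sparse H h1 2 (egirth_of_free hfree) (eIn H Finset.univ) hA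
  have h4 := rk_le H Finset.univ Finset.univ_nonempty
  rw [Finset.card_univ, Fintype.card_fin] at h4
  omega

open Pool.Agent.TH455 in
theorem lower (k t : ℕ) (h : IsUnion (⊤ : SimpleGraph (Fin (4 * k + 2))) t) : k + 1 ≤ t := by
  obtain ⟨H, -, hH, hcov⟩ := h
  have h1 : (eIn (⊤ : SimpleGraph (Fin (4 * k + 2))) Finset.univ).card = (4 * k + 2).choose 2 := by
    have h2 : eIn (⊤ : SimpleGraph (Fin (4 * k + 2))) Finset.univ = (⊤ : SimpleGraph (Fin (4 * k + 2))).edgeFinset := by
      ext e
      rw [mem_eIn, SimpleGraph.mem_edgeFinset]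
    rw [h2]
    have h3 := (SimpleGraph.card_edgeFinset_top_eq_card_choose_two (V := Fin (4 * k + 2))).trans
      (congrArg (fun n => Nat.choose n 2) (Fintype.card_fin (4 * k + 2)))
    have h4 : ∀ (i1 i2 : Fintype (⊤ : SimpleGraph (Fin (4 * k + 2))).edgeSet),
        (@SimpleGraph.edgeFinset _ (⊤ : SimpleGraph (Fin (4 * k + 2))) i1).card =
          (@SimpleGraph.edgeFinset _ (⊤ : SimpleGraph (Fin (4 * k + 2))) i2).card := by
      intro i1 i2
      rw [Subsingleton.elim i1 i2]
    exact (h4 _ _).trans h3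
  have h2 : (eIn (⊤ : SimpleGraph (Fin (4 * k + 2))) Finset.univ) ⊆ Finset.univ.biUnion (fun i : Fin t => eIn (H i) Finset.univ) := by
    intro e he
    rw [mem_eIn] at he
    rw [Finset.mem_biUnion]
    induction e using Sym2.ind with
    | _ u v =>
      obtain ⟨i, hi⟩ := hcov u v he
      exact ⟨i, Finset.mem_univ _, (mem_eIn _ _).2 hi⟩
  have h3 : (eIn (⊤ : SimpleGraph (Fin (4 * k + 2))) Finset.univ).card ≤ t * (2 * (4 * k + 1)) := by
    refine (Finset.card_le_card h2).trans (Finset.card_biUnion_le.trans ?_)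
    have h4 : ∀ i ∈ (Finset.univ : Finset (Fin t)), (eIn (H i) Finset.univ).card ≤ 2 * (4 * k + 1) :=
      fun i _ => edges_le (H i) (hH i).1 (hH i).2
    have := Finset.sum_le_card_nsmul _ _ _ h4
    simpa using this
  rw [h1] at h3
  have h4 : (4 * k + 2).choose 2 = (2 * k + 1) * (4 * k + 1) := by
    rw [Nat.choose_two_right]
    have : (4 * k + 2) * (4 * k + 2 - 1) = ((2 * k + 1) * (4 * k + 1)) * 2 := by
      rw [show 4 * k + 2 - 1 = 4 * k + 1 by omega]
      ring
    rw [this, Nat.mul_div_cancel _ (by norm_num)]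
  rw [h4] at h3
  have h5 : (2 * k + 1) * (4 * k + 1) ≤ (2 * t) * (4 * k + 1) := by
    calc (2 * k + 1) * (4 * k + 1) ≤ t * (2 * (4 * k + 1)) := h3
      _ = _ := by ring
  have h6 := Nat.le_of_mul_le_mul_right h5 (by omega)
  omega

/-- **The bipartite thickness of `K_p` is `(p + 2) / 4` for every `p ≥ 14` with `p ≡ 2` modulo `4`.** -/
theorem result (p : ℕ) (hp : p % 4 = 2) (h : 14 ≤ p) :
    bipartiteThickness (⊤ : SimpleGraph (Fin p)) = (p + 2) / 4 := by
  obtain ⟨k, rfl⟩ : ∃ k, p = 4 * k + 2 := ⟨p / 4, by omega⟩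
  have hk : 3 ≤ k := by omega
  have e : (4 * k + 2 + 2) / 4 = k + 1 := by omega
  rw [e]
  unfold bipartiteThickness
  apply le_antisymm
  · exact Nat.sInf_le (upper k hk)
  · apply le_csInf ⟨k + 1, upper k hk⟩
    intro t ht
    exact lower k t ht

end Pool.Agent.Results.MP_a8e10c_co.BipartiteThickness
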